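import Pool.Agent.SZT.StmtsA

/-!
# SZT, row SMS: the star of a root is at most half of the discriminant
-/

set_option autoImplicit false

namespace Pool.Agent.SZT.H64

open Polynomial
open Pool.Agent.SZT

theorem dsc_eq {E : Type} [Field E] (θ : Fin 5 → E) :
    dsc θ = ((θ 0 - θ 1) * (θ 0 - θ 2) * (θ 0 - θ 3) * (θ 0 - θ 4) * (θ 1 - θ 2) * (θ 1 - θ 3) *
      (θ 1 - θ 4) * (θ 2 - θ 3) * (θ 2 - θ 4) * (θ 3 - θ 4)) ^ 2 := by
  unfold dsc
  rw [Fin.prod_univ_five]
  have f0 : (Finset.univ.filter (fun j : Fin 5 => (0 : Fin 5) < j)) = {1, 2, 3, 4} := by decide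
  have f1 : (Finset.univ.filter (fun j : Fin 5 => (1 : Fin 5) < j)) = {2, 3, 4} := by decide
  have f2 : (Finset.univ.filter (fun j : Fin 5 => (2 : Fin 5) < j)) = {3, 4} := by decide
  have f3 : (Finset.univ.filter (fun j : Fin 5 => (3 : Fin 5) < j)) = {4} := by decide
  have f4 : (Finset.univ.filter (fun j : Fin 5 => (4 : Fin 5) < j)) = ∅ := by decide
  rw [f0, f1, f2, f3, f4, Finset.prod_insert (by decide), Finset.prod_insert (by decide),
    Finset.prod_insert (by decide), Finset.prod_singleton, Finset.prod_insert (by decide),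
    Finset.prod_insert (by decide), Finset.prod_singleton, Finset.prod_insert (by decide),
    Finset.prod_singleton, Finset.prod_singleton, Finset.prod_empty]
  ring

/-- **SMS** -/
theorem sms : SmsStmt := by
  intro E _ v θ ρ hinj hρ
  have hpos : ∀ i j, i ≠ j → 0 < v (θ i - θ j) := fun i j hij =>
    v.pos (sub_ne_zero.2 fun h => hij (hinj h))
  have hle : ∀ i j, i ≠ j → Real.log (v (θ i - θ j)) ≤ Real.log ρ := fun i j hij =>
    Real.log_le_log (hpos i j hij) (hρ i j)
  have hsym : ∀ i j, Real.log (v (θ i - θ j)) = Real.log (v (θ j - θ i)) := fun i j => by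
    rw [v.map_sub]
  have h01 := hpos 0 1 (by decide)
  have h02 := hpos 0 2 (by decide)
  have h03 := hpos 0 3 (by decide)
  have h04 := hpos 0 4 (by decide)
  have h12 := hpos 1 2 (by decide)
  have h13 := hpos 1 3 (by decide)
  have h14 := hpos 1 4 (by decide)
  have h23 := hpos 2 3 (by decide)
  have h24 := hpos 2 4 (by decide)
  have h34 := hpos 3 4 (by decide)
  have hd : Real.log (v (dsc θ)) = 2 * (Real.log (v (θ 0 - θ 1)) + Real.log (v (θ 0 - θ 2)) +
      Real.log (v (θ 0 - θ 3)) + Real.log (v (θ 0 - θ 4)) + Real.log (v (θ 1 - θ 2)) +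
      Real.log (v (θ 1 - θ 3)) + Real.log (v (θ 1 - θ 4)) + Real.log (v (θ 2 - θ 3)) +
      Real.log (v (θ 2 - θ 4)) + Real.log (v (θ 3 - θ 4))) := by
    rw [dsc_eq, map_pow, Real.log_pow]
    simp only [map_mul]
    rw [Real.log_mul (by positivity) h34.ne', Real.log_mul (by positivity) h24.ne',
      Real.log_mul (by positivity) h23.ne', Real.log_mul (by positivity) h14.ne',
      Real.log_mul (by positivity) h13.ne', Real.log_mul (by positivity) h12.ne',
      Real.log_mul (by positivity) h04.ne', Real.log_mul (by positivity) h03.ne',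
      Real.log_mul h01.ne' h02.ne']
    push_cast
    ring
  have l01 := hle 0 1 (by decide)
  have l02 := hle 0 2 (by decide)
  have l03 := hle 0 3 (by decide)
  have l04 := hle 0 4 (by decide)
  have l12 := hle 1 2 (by decide)
  have l13 := hle 1 3 (by decide)
  have l14 := hle 1 4 (by decide)
  have l23 := hle 2 3 (by decide)
  have l24 := hle 2 4 (by decide)
  have l34 := hle 3 4 (by decide)
  have e0 : (Finset.univ.erase (0 : Fin 5)) = {1, 2, 3, 4} := by decide
  have e1 : (Finset.univ.erase (1 : Fin 5)) = {0, 2, 3, 4} := by decide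
  have e2 : (Finset.univ.erase (2 : Fin 5)) = {0, 1, 3, 4} := by decide
  have e3 : (Finset.univ.erase (3 : Fin 5)) = {0, 1, 2, 4} := by decide
  have e4 : (Finset.univ.erase (4 : Fin 5)) = {0, 1, 2, 3} := by decide
  refine ⟨fun i => ?_, ?_⟩
  · have hi : i = 0 ∨ i = 1 ∨ i = 2 ∨ i = 3 ∨ i = 4 := by
      fin_cases i <;> simp
    rcases hi with rfl | rfl | rfl | rfl | rfl
    · rw [e0, Finset.sum_insert (by decide), Finset.sum_insert (by decide),
        Finset.sum_insert (by decide), Finset.sum_singleton, hd]
      linarith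
    · rw [e1, Finset.sum_insert (by decide), Finset.sum_insert (by decide),
        Finset.sum_insert (by decide), Finset.sum_singleton, hd, hsym 1 0]
      linarith
    · rw [e2, Finset.sum_insert (by decide), Finset.sum_insert (by decide),
        Finset.sum_insert (by decide), Finset.sum_singleton, hd, hsym 2 0, hsym 2 1]
      linarith
    · rw [e3, Finset.sum_insert (by decide), Finset.sum_insert (by decide),
        Finset.sum_insert (by decide), Finset.sum_singleton, hd, hsym 3 0, hsym 3 1, hsym 3 2]
      linarith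
    · rw [e4, Finset.sum_insert (by decide), Finset.sum_insert (by decide),
        Finset.sum_insert (by decide), Finset.sum_singleton, hd, hsym 4 0, hsym 4 1, hsym 4 2,
        hsym 4 3]
      linarith
  · rw [hd]
    linarith

end Pool.Agent.SZT.H64
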